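import Pool.Agent.H78.Ham

open Pool.Agent.H78.Ham

theorem Pool.Agent.Results.MP_3553b5_co.Counter.result :
    ∀ n d : ℕ, 3 ≤ d → d + 3 ≤ n → ∀ x y : Fin n → ZMod 3, (H 3 n d).Adj x y →
      ∃ K : (Fin n → ZMod 3) → Fin (3 ^ (n - d + 1)), Proper (H 3 n d) K ∧
        IsTransition (H 3 n d) K x y :=
  main.1
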